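import Pool.Agent.P.MP_81321e_al.ChWr

set_option autoImplicit false

namespace Pool.Agent.Results.MP_81321e_al.CharRange

/-- The word length of `g` with respect to `S`. -/
noncomputable def wordLength {G : Type} [Group G] (S : Finset G) (g : G) : ℕ :=
  sInf {n : ℕ | ∃ l : List G, l.length = n ∧ (∀ s ∈ l, s ∈ S ∨ s⁻¹ ∈ S) ∧ l.prod = g}

/-- Twice the Gromov product of `x` and `y` at the base point `w`. -/
noncomputable def gromov {G : Type} [Group G] (S : Finset G) (w x y : G) : ℤ :=
  (wordLength S (w⁻¹ * x) : ℤ) + wordLength S (w⁻¹ * y) - wordLength S (x⁻¹ * y)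

/-- Gromov hyperbolic groups: the word metric of a finite generating set satisfies the four-point
condition. -/
def IsHyperbolic (G : Type) [Group G] : Prop :=
  ∃ S : Finset G, Subgroup.closure (S : Set G) = ⊤ ∧ ∃ δ : ℕ, ∀ x y z w : G,
    min (gromov S w x y) (gromov S w y z) - 2 * (δ : ℤ) ≤ gromov S w x z

/-- The ring of `d × d` matrices over `K[M]` is directly finite, and the ring of
`(d + 1) × (d + 1)` matrices is not. -/
def HasLevel (K M : Type) [Field K] [Monoid M] (d : ℕ) : Prop :=
  (∀ a b : Matrix (Fin d) (Fin d) (MonoidAlgebra K M), a * b = 1 → b * a = 1) ∧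
    ¬ ∀ a b : Matrix (Fin (d + 1)) (Fin (d + 1)) (MonoidAlgebra K M), a * b = 1 → b * a = 1

/-- For every field `K` and every `d ≥ 1`, the level `d` occurs for a monoid if and only if it
occurs for a hyperbolic group, if and only if `K` has positive characteristic. -/
theorem result (K : Type) [Field K] (d : ℕ) (hd : 1 ≤ d) :
    List.TFAE [ringChar K ≠ 0,
      ∃ (G : Type) (_ : Group G), IsHyperbolic G ∧ HasLevel K G d,
      ∃ (M : Type) (_ : Monoid M), HasLevel K M d] := by
  tfae_have 1 → 2 := fun h => by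
    have : Fact (ringChar K).Prime := ⟨(CharP.char_is_prime_or_zero K _).resolve_right h⟩
    obtain ⟨G, _, ⟨S, h1, l, h2, δ, h3⟩, h4⟩ := Pool.Agent.P.MP_81321e_al.Ch.main K (ringChar K) d hd
    obtain rfl : l = wordLength S := funext h2
    exact ⟨G, inferInstance, ⟨S, h1, δ, h3⟩, h4⟩
  tfae_have 2 → 3 := fun ⟨G, _, _, h⟩ => ⟨G, inferInstance, h⟩
  tfae_have 3 → 1 := fun ⟨M, _, h1, h2⟩ h => by
    have : CharZero K := (CharP.ringChar_zero_iff_CharZero K).1 h
    exact h2 (Pool.Agent.P.MP_81321e_al.Ch.zero K M d hd h1 _)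
  tfae_finish

end Pool.Agent.Results.MP_81321e_al.CharRange
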