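import Pool.Agent.P.MP_81321e_al.Reduce
import Pool.Agent.P.MP_81321e_al.Kaplansky
import Pool.Agent.P.MP_81321e_al.Descent
import Pool.Agent.P.MP_81321e_al.LocFin

set_option autoImplicit false

namespace Pool.Agent.Results.MP_81321e_al.StablyFinite

open Pool.Agent.P.MP_81321e_al

universe u v

/-- `G` is residually locally finite: every nontrivial element survives in a homomorphism to a
group all of whose finitely generated subgroups are finite. -/
def ResLocFin (G : Type v) [Group G] : Prop :=
  ∀ g : G, g ≠ 1 → ∃ (Q : Type v) (_ : Group Q) (π : G →* Q), π g ≠ 1 ∧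
    ∀ s : Finset Q, Finite (Subgroup.closure (s : Set Q))

/-- The Hattori-Stallings trace of the square matrix `q` over `Λ[G]` vanishes: the diagonal sum
of `q` pairs to zero with every class function. -/
def HSZero {Λ : Type} [CommRing Λ] {G : Type v} [Group G] {m : ℕ}
    (q : Matrix (Fin m) (Fin m) (MonoidAlgebra Λ G)) : Prop :=
  ∀ ψ : G → Λ, (∀ g c, ψ (c * g * c⁻¹) = ψ g) → (q.trace.coeff.sum fun g c => c * ψ g) = 0

/-- An idempotent matrix over `(ℤ/p)[G]`, all of whose idempotent lifts to the rings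
`(ℤ/p^(k+1))[G]` have zero Hattori-Stallings trace, is zero. -/
def LiftFaithful (p : ℕ) (G : Type v) [Group G] : Prop :=
  ∀ (m : ℕ) (q : Matrix (Fin m) (Fin m) (MonoidAlgebra (ZMod p) G)), q * q = q →
    (∀ (k : ℕ) (q' : Matrix (Fin m) (Fin m) (MonoidAlgebra (ZMod (p ^ (k + 1))) G)),
      q' * q' = q' →
      q'.map (MonoidAlgebra.mapRingHom G
        (ZMod.castHom (dvd_pow_self p (Nat.succ_ne_zero k)) (ZMod p))) = q → HSZero q') →
    q = 0

theorem result (K : Type u) (M : Type v) [Field K] [Monoid M]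
    (h : ringChar K = 0 ∨ ∀ (G : Type v) [Group G] (ι : G →ₙ* M), Function.Injective ι →
      ResLocFin G ∨ LiftFaithful (ringChar K) G) :
    List.TFAE [IsDedekindFiniteMonoid (MonoidAlgebra K M),
      ∃ d : ℕ, 1 ≤ d ∧ IsDedekindFiniteMonoid (Matrix (Fin d) (Fin d) (MonoidAlgebra K M)),
      ∀ d : ℕ, IsDedekindFiniteMonoid (Matrix (Fin d) (Fin d) (MonoidAlgebra K M)),
      ∀ g k x y : M, g * x * k = g → g * y * k = k → ∃ r : M, g = k * r] := by
  tfae_have 1 → 4 := fun _ => good_of_df K M
  tfae_have 3 → 2 := fun H => ⟨1, le_rfl, H 1⟩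
  tfae_have 2 → 1 := by
    rintro ⟨d, hd, H⟩
    have : Nonempty (Fin d) := ⟨⟨0, hd⟩⟩
    exact IsDedekindFiniteMonoid.of_injective (Matrix.scalar (Fin d))
      (fun a b hab => Matrix.scalar_inj.1 hab)
  tfae_have 4 → 3 := by
    intro hM
    suffices H : IsStablyFiniteRing (MonoidAlgebra K M) from H.isDedekindFiniteMonoid
    rcases CharP.char_is_prime_or_zero K (ringChar K) with hp | h0
    · have hG := h.resolve_left hp.ne_zero
      have : Fact (ringChar K).Prime := ⟨hp⟩
      set p := ringChar K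
      let _ : Algebra (ZMod p) K := ZMod.algebra K p
      have : IsStablyFiniteRing (MonoidAlgebra (ZMod p) M) := by
        refine ⟨fun n => ⟨fun {X Y} hXY => ?_⟩⟩
        by_contra h'
        obtain ⟨G, _, ι, hι, m, q, hq, hq0, H⟩ := core_lift hM X Y hXY h'
        have H' : ∀ (k : ℕ)
            (q' : Matrix (Fin m) (Fin m) (MonoidAlgebra (ZMod (p ^ (k + 1))) G)), q' * q' = q' →
            q'.map (MonoidAlgebra.mapRingHom G
              (ZMod.castHom (dvd_pow_self p (Nat.succ_ne_zero k)) (ZMod p))) = q → HSZero q' :=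
          fun k q' h1 h2 => H (ZMod (p ^ (k + 1))) _ p (k + 1) (ZMod.ringHom_surjective _)
            (castHom_ker p k) (pow_eq_zero_zmod p k) q' h1 h2
        rcases hG G ι hι with h1 | h1
        · exact hq0 (resLocFin_case p h1 q hq H')
        · exact hq0 (h1 m q hq H')
      exact stablyFinite_of_ext (ZMod p) K M
    · have : CharZero K := (CharP.ringChar_zero_iff_CharZero K).1 h0
      have : IsStablyFiniteRing (MonoidAlgebra ℝ M) := by
        refine ⟨fun n => ⟨fun {X Y} hXY => ?_⟩⟩
        by_contra h'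
        obtain ⟨G, _, m, q, hq, hq0, H⟩ := core_trace hM X Y hXY h'
        exact hq0 (kaplansky q hq H)
      have : IsStablyFiniteRing (MonoidAlgebra ℚ M) :=
        IsStablyFiniteRing.of_injective (MonoidAlgebra.mapRingHom M (algebraMap ℚ ℝ))
          (MonoidAlgebra.map_injective (algebraMap ℚ ℝ).toAddMonoidHom (algebraMap ℚ ℝ).injective)
      exact stablyFinite_of_ext ℚ K M
  tfae_finish

end Pool.Agent.Results.MP_81321e_al.StablyFinite
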